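import Pool.Agent.V5helper20.KX.Stm
import Pool.Agent.V5helper27.QB.F1g

set_option autoImplicit false

/-!
# Project KX, job PER: inscribed triangles are longer, any number of unknown sides
-/

namespace Pool.Agent.V5helper61.KX

open Set Filter Topology Complex
open Pool.Agent.N275.GP
open Pool.Agent.W780.PG (IsConvexPolygon region)
open Pool.Agent.V5helper71.QB
open Pool.Agent.V5helper20.KX
open Pool.Agent.V5helper27.QB.F1g
open Pool.Agent.N9.GP (seg_par seg_le seg_eq seg_on tau_eq val_sub_eq val_neg_eq val_sub_pos trich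
  order3 ip_par)
open scoped Real

variable {m : ℕ} {q : Fin (m + 3) → ℂ} {S : Finset (Fin (m + 3))} {δ r : ℝ}

lemma sh_of_val {a b : Fin (m + 3)} (h : 0 < cr (nu q a) (nu q b)) (h3 : 3 ≤ (b - a).val) :
    Sh (nu q) a b ∧ b ≠ a + 2 := by
  refine ⟨⟨?_, h⟩, ?_⟩
  · rintro rfl
    rw [add_sub_cancel_left, Fin.val_one] at h3
    omega
  · rintro rfl
    rw [add_sub_cancel_left] at h3
    have h2 : (2 : Fin (m + 3)).val = 2 := by
      have : (2 : Fin (m + 3)).val = 2 % (m + 3) := rfl
      rw [this, Nat.mod_eq_of_lt (by omega)]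
    rw [h2] at h3
    omega

/-- an arc with at least two sides, all of them known -/
lemma arc_known (hA : S_ASM) (hG : Sg q S δ r) {a b : Fin (m + 3)}
    (h : 0 < cr (nu q a) (nu q b)) (h3 : 3 ≤ (b - a).val) (hS : ∀ i, Bt a i b → i ∈ S) {x y : ℂ}
    (hx : x ∈ segment ℝ (q a) (q (a + 1))) (hy : y ∈ segment ℝ (q b) (q (b + 1))) :
    δ < ‖x - y‖ := by
  obtain ⟨h1, h2⟩ := sh_of_val h h3
  have hd := hA m q r a b hG.conv hG.rpos h1 h2 fun i hi => hG.good i (hS i hi)
  have hg := (hGD m q a b hG.conv h1).2 x y (seg_eq hG.conv hx).ge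
    (fun i _ => seg_le hG.conv hx i) (seg_eq hG.conv hy).ge (fun i _ => seg_le hG.conv hy i)
  have := hG.lt
  linarith

/-- an arc with at least two sides -/
lemma arc (hA : S_ASM) (hG : Sg q S δ r) {a b : Fin (m + 3)}
    (h : 0 < cr (nu q a) (nu q b)) (h3 : 3 ≤ (b - a).val) {x y : ℂ}
    (hx : x ∈ segment ℝ (q a) (q (a + 1))) (hy : y ∈ segment ℝ (q b) (q (b + 1))) :
    δ ≤ ‖x - y‖ := by
  by_cases hS : ∀ i, Bt a i b → i ∈ S
  · exact (arc_known hA hG h h3 hS hx hy).le
  · push Not at hS
    obtain ⟨i, hi, hiS⟩ := hS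
    exact gd_seg hG.conv hG.lv h hi hiS hx hy

/-- a vertex and the side opposite to it -/
lemma V (hA : S_ASM) (hG : Sg q S δ r)
    {a b : Fin (m + 3)} (hP : Pos3 (nu q a) (nu q b) (nu q (a - 1))) {y : ℂ}
    (hy : y ∈ segment ℝ (q b) (q (b + 1))) : δ < ‖q a - y‖ := by
  have hq := hG.conv
  have hL := hG.lv
  have hm := hG.four
  by_contra hcon
  push Not at hcon
  have hP' := hP
  obtain ⟨hab, hbp, hpa⟩ := hP
  -- indices
  have hne : a ≠ b := by
    rintro rfl
    rw [cr_self] at hab
    exact lt_irrefl _ hab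
  have hne' : b ≠ a - 1 := by
    rintro rfl
    rw [cr_self] at hbp
    exact lt_irrefl _ hbp
  have hne'' : a ≠ b + 1 := fun h => hne' (by rw [h, add_sub_cancel_right])
  have hord := order3 h_PH hq hP'
  have k0 : 0 < (b - a).val := val_sub_pos hne
  have km1 : (a - 1 - a).val = m + 2 := by
    have : a - 1 - a = -(1 : Fin (m + 3)) := by abel
    rw [this, Fin.val_neg, if_neg (by simp), Fin.val_one]
    omega
  rw [km1] at hord
  have hba : (a - b).val = m + 3 - (b - a).val := val_neg_eq hne
  have hpb : (a - 1 - b).val = m + 2 - (b - a).val := by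
    have : a - 1 - b = a - b - 1 := by abel
    rw [this, val_pred (by omega), hba]
    omega
  have hyne : q a ≠ y := by
    intro h
    have h1 := ip_lt hq hne hne''
    have h2 := seg_eq hq hy
    rw [← h] at h2
    linarith
  -- the vector
  set w := y - q a with hw
  have hneg : q a - y = -w := by rw [hw]; ring
  have hla := ln_pos hq a
  have hlp := ln_pos hq (a - 1)
  have hya := seg_le hq hy a
  have hyp := seg_le hq hy (a - 1)
  have hyb := seg_eq hq hy
  have hin := inner hq hyp hya hyne
  have sgn : ∀ u v : ℂ, ip (-u) v = -ip u v := by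
    intro u v
    simp only [ip, neg_re, neg_im]
    ring
  have sgn' : ∀ u v : ℂ, ip u (-v) = -ip u v := by
    intro u v
    simp only [ip, neg_re, neg_im]
    ring
  have prev : ∀ (u : ℂ) (c : Fin (m + 3)), ip u (q (c - 1) - q c) =
      -(ln q (c - 1) * ip u (I * nu q (c - 1))) := by
    intro u c
    have := ip_side hq u (c - 1)
    rw [sub_add_cancel] at this
    rw [← this, ← sgn']
    congr 1
    ring
  have hcon' : ‖y - q a‖ ≤ δ := by rw [norm_sub_rev]; exact hcon
  by_cases hGd : ∃ i, Bt a i b ∧ i ∉ S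
  · obtain ⟨i, hi, hiS⟩ := hGd
    have hk2 : 2 ≤ (b - a).val := by
      have := hi.1
      have := hi.2
      omega
    have f1 := fox hq hL hab hi hiS (mem_left a) hy hcon (mem_right a)
    rw [← hw, ip_side hq] at f1
    have h1 : ip w (I * nu q a) ≤ 0 := by
      by_contra hc
      push Not at hc
      have := mul_pos hla hc
      linarith
    have h2 : ip w (I * nu q (a - 1)) < 0 := hin.resolve_left (not_lt.2 h1)
    have h3 : 0 < ip w (I * nu q b) :=
      (cone hab rfl hya hyb (ip_le_co hq b a) hyne).resolve_left (not_lt.2 h1)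
    -- `y = q b`
    have hyb' : y = q b := by
      obtain ⟨s, hs, hs'⟩ := Pool.Agent.N9.GP.NK.par_start hq hy
      have f2 := foy hq hL hab hi hiS (mem_left a) hy hcon (mem_left b)
      have e : q b - y = -((s : ℂ) * (I * nu q b)) := by rw [hs']; ring
      rw [hneg, e, sgn, sgn', ip_smul, neg_neg] at f2
      have hs0 : s = 0 := by
        by_contra hc
        have := mul_pos (lt_of_le_of_ne hs (Ne.symm hc)) h3
        linarith
      rw [hs', hs0]
      simp
    have hval1 : (b - 1 - a).val = (b - a).val - 1 := by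
      have : b - 1 - a = b - a - 1 := by abel
      rw [this, val_pred k0]
    have hce : 0 < cr (nu q a) (nu q (b - 1)) :=
      short_pos hq hab (by rw [sub_self, hval1]; simp only [Fin.val_zero]; omega)
        (by rw [hval1]; omega)
    have hqb : ip (nu q (b - 1)) y = co q (b - 1) := by
      have := co_next hq (b - 1)
      rw [sub_add_cancel] at this
      rw [hyb', this]
    have h4 : 0 < ip w (I * nu q (b - 1)) :=
      (cone hce rfl hya hqb (ip_le_co hq (b - 1) a) hyne).resolve_left (not_lt.2 h1)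
    have hmb : y ∈ segment ℝ (q (b - 1)) (q (b - 1 + 1)) := by
      rw [hyb']
      exact mem_pred b
    have hI2 : ∀ i, Bt b i (a - 1) → i ∈ S := by
      intro i hBt
      by_contra hS1
      have f2 := foy hq hL hbp hBt hS1 hy (mem_pred a) hcon' (mem_left (a - 1))
      rw [prev, ← hw] at f2
      have := mul_neg_of_pos_of_neg hlp h2
      linarith
    have hI1 : ∀ i, Bt a i (b - 1) → i ∈ S := by
      intro i hBt
      by_contra hS1
      have f2 := foy hq hL hce hBt hS1 (mem_left a) hmb hcon (mem_left (b - 1))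
      have e : q (b - 1) - y = q (b - 1) - q b := by rw [hyb']
      rw [e, prev, hneg, sgn, mul_neg, neg_neg] at f2
      have := mul_pos (ln_pos hq (b - 1)) h4
      linarith
    rcases le_or_gt 3 (a - 1 - b).val with h5 | h5
    · have := arc_known hA hG hbp h5 hI2 hy (mem_pred a)
      linarith
    · have := arc_known hA hG hce (by rw [hval1]; omega) hI1 (mem_left a) hmb
      linarith
  · push Not at hGd
    rcases le_or_gt 3 (b - a).val with h5 | h5
    · have := arc_known hA hG hab h5 hGd (mem_left a) hy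
      linarith
    obtain ⟨i, hi, hiS⟩ : ∃ i, Bt b i (a - 1) ∧ i ∉ S := by
      by_contra hall
      push Not at hall
      have := arc_known hA hG hbp (by omega) hall hy (mem_pred a)
      linarith
    have hpa' : ip (nu q (a - 1)) (q a) = co q (a - 1) := by
      have := co_next hq (a - 1)
      rwa [sub_add_cancel] at this
    have f1 := foy hq hL hbp hi hiS hy (mem_pred a) hcon' (mem_left (a - 1))
    rw [prev, ← hw] at f1
    have h1 : 0 ≤ ip w (I * nu q (a - 1)) := by
      by_contra hc
      push Not at hc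
      have := mul_neg_of_pos_of_neg hlp hc
      linarith
    have h2 : 0 < ip w (I * nu q a) := hin.resolve_right (not_lt.2 h1)
    have h3 : ip w (I * nu q b) < 0 := by
      rcases cone hbp hyb (ip_le_co hq b a) hpa' hyp hyne.symm with h | h
      · rw [hneg, sgn] at h
        linarith
      · rw [hneg, sgn] at h
        linarith
    have hyb' : y = q (b + 1) := by
      obtain ⟨s, hs, hs'⟩ := Pool.Agent.N9.GP.NK.par_end hq hy
      have f2 := fox hq hL hbp hi hiS hy (mem_pred a) hcon' (mem_right b)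
      have e : q (b + 1) - y = (s : ℂ) * (I * nu q b) := by rw [hs']; ring
      rw [hneg, e, sgn, ip_smul] at f2
      have hs0 : s = 0 := by
        by_contra hc
        have := mul_neg_of_pos_of_neg (lt_of_le_of_ne hs (Ne.symm hc)) h3
        linarith
      rw [hs', hs0]
      simp
    have hval1 : (a - 1 - (b + 1)).val = m + 1 - (b - a).val := by
      have : a - 1 - (b + 1) = a - 1 - b - 1 := by abel
      rw [this, val_pred (by omega), hpb]
      omega
    have hce : 0 < cr (nu q (b + 1)) (nu q (a - 1)) :=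
      short_pos hq hbp (by rw [add_sub_cancel_left, Fin.val_one, hpb]; omega) le_rfl
    have hqb : ip (nu q (b + 1)) y = co q (b + 1) := by rw [hyb']; rfl
    have h4 : ip w (I * nu q (b + 1)) < 0 := by
      rcases cone hce hqb (ip_le_co hq (b + 1) a) hpa' hyp hyne.symm with h | h
      · rw [hneg, sgn] at h
        linarith
      · rw [hneg, sgn] at h
        linarith
    have hmb : y ∈ segment ℝ (q (b + 1)) (q (b + 1 + 1)) := by
      rw [hyb']
      exact mem_left (b + 1)
    have hI2 : ∀ i, Bt (b + 1) i (a - 1) → i ∈ S := by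
      intro i hBt
      by_contra hS1
      have f2 := fox hq hL hce hBt hS1 hmb (mem_pred a) hcon' (mem_right (b + 1))
      have e : q (b + 1 + 1) - y = q (b + 1 + 1) - q (b + 1) := by rw [hyb']
      rw [e, ip_side hq, hneg, sgn] at f2
      have := mul_neg_of_pos_of_neg (ln_pos hq (b + 1)) h4
      linarith
    have := arc_known hA hG hce (by rw [hval1]; omega) hI2 hmb (mem_pred a)
    linarith

/-- the strict inequality, with at least two sides between `a` and `b` -/
lemma strict1 (hA : S_ASM) (hG : Sg q S δ r)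
    {a b c : Fin (m + 3)} (hP : Pos3 (nu q a) (nu q b) (nu q c)) (h3 : 3 ≤ (b - a).val)
    {x y z : ℂ} (hx : x ∈ segment ℝ (q a) (q (a + 1)))
    (hy : y ∈ segment ℝ (q b) (q (b + 1))) (hz : z ∈ segment ℝ (q c) (q (c + 1))) :
    2 * δ < pr3 x y z := by
  have hq := hG.conv
  have hL := hG.lv
  by_contra hcon
  push Not at hcon
  unfold pr3 at hcon
  obtain ⟨hab, hbc, hca⟩ := hP
  have h0 : δ ≤ ‖x - y‖ := arc hA hG hab h3 hx hy
  have htri : ‖x - y‖ ≤ ‖y - z‖ + ‖z - x‖ := by
    calc ‖x - y‖ = ‖(y - z) + (z - x)‖ := by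
          rw [← norm_neg (x - y)]
          congr 1
          ring
      _ ≤ _ := norm_add_le _ _
  have h1 : ‖x - y‖ ≤ δ := by linarith
  have h2 : dist x z + dist z y = dist x y := by
    rw [dist_eq_norm, dist_eq_norm, dist_eq_norm, norm_sub_rev x z, norm_sub_rev z y]
    linarith
  obtain ⟨t, ⟨ht0, ht1⟩, ht⟩ := dist_add_dist_eq_iff.1 h2
  have h3 : z = x + (t : ℂ) * (y - x) := by
    rw [← ht, AffineMap.lineMap_apply, vsub_eq_sub, vadd_eq_add, real_smul, add_comm]
  have h4 := seg_eq hq hz
  rw [h3, ip_par] at h4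
  have hcx := seg_le hq hx c
  have hcy := seg_le hq hy c
  have hac : a ≠ c := by
    rintro rfl
    rw [cr_self] at hca
    exact lt_irrefl _ hca
  have hbc' : b ≠ c := by
    rintro rfl
    rw [cr_self] at hbc
    exact lt_irrefl _ hbc
  rcases le_or_gt t (1 / 2) with h5 | h5
  · have hon : ip (nu q c) x = co q c := by
      nlinarith [mul_nonneg ht0 (sub_nonneg.2 hcy)]
    rcases seg_on hq hac hx hon with ⟨h6, h7⟩ | ⟨h6, h7⟩
    · have h8 : c = a - 1 := by rw [h7, add_sub_cancel_right]
      subst h8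
      have := V hA hG ⟨hab, hbc, hca⟩ hy
      rw [← h6] at this
      linarith
    · rw [h7, cr_comm] at hca
      have := cr_next hq a
      linarith
  · have hon : ip (nu q c) y = co q c := by
      nlinarith [mul_nonneg (sub_nonneg.2 ht1) (sub_nonneg.2 hcx)]
    rcases seg_on hq hbc' hy hon with ⟨h6, h7⟩ | ⟨h6, h7⟩
    · rw [h7, cr_comm] at hbc
      have := cr_next hq c
      linarith
    · subst h7
      have h8 : b + 1 - 1 = b := add_sub_cancel_right _ _
      have := V hA hG (a := b + 1) (b := a) ⟨hca, by rw [h8]; exact hab, by rw [h8]; exact hbc⟩ hx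
      rw [h6, norm_sub_rev] at h1
      linarith

/-- the strict inequality -/
lemma strict (hA : S_ASM) (hG : Sg q S δ r)
    {a b c : Fin (m + 3)} (hP : Pos3 (nu q a) (nu q b) (nu q c))
    {x y z : ℂ} (hx : x ∈ segment ℝ (q a) (q (a + 1)))
    (hy : y ∈ segment ℝ (q b) (q (b + 1))) (hz : z ∈ segment ℝ (q c) (q (c + 1))) :
    2 * δ < pr3 x y z := by
  have hm := hG.four
  have rot : ∀ x y z : ℂ, pr3 x y z = pr3 y z x := by
    intro x y z
    unfold pr3
    ring
  have hord := order3 h_PH hG.conv hP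
  obtain ⟨h1, h2, h3⟩ := hP
  have hca : a ≠ c := by
    rintro rfl
    rw [cr_self] at h3
    exact lt_irrefl _ h3
  have e1 : (c - b).val = (c - a).val - (b - a).val := val_sub_eq hord.le
  have e2 : (a - c).val = m + 3 - (c - a).val := val_neg_eq hca
  rcases le_or_gt 3 (b - a).val with h | h
  · exact strict1 hA hG ⟨h1, h2, h3⟩ h hx hy hz
  rcases le_or_gt 3 (c - b).val with h' | h'
  · rw [rot]
    exact strict1 hA hG ⟨h2, h3, h1⟩ h' hy hz hx
  · rw [rot, rot]
    exact strict1 hA hG ⟨h3, h1, h2⟩ (by omega) hz hx hy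

/-- **PER** -/
theorem t_PER : S_PER := by
  intro hA _ m q S δ r hG
  have h1 : ∀ t : Fin (m + 3) × Fin (m + 3) × Fin (m + 3), ∃ e : ℝ, δ < e ∧
      (Pos3 (nu q t.1) (nu q t.2.1) (nu q t.2.2) → ∀ x ∈ segment ℝ (q t.1) (q (t.1 + 1)),
        ∀ y ∈ segment ℝ (q t.2.1) (q (t.2.1 + 1)), ∀ z ∈ segment ℝ (q t.2.2) (q (t.2.2 + 1)),
        2 * e ≤ pr3 x y z) := by
    intro t
    by_cases hP : Pos3 (nu q t.1) (nu q t.2.1) (nu q t.2.2)
    · obtain ⟨e, he, he'⟩ := Pool.Agent.N9.GP.NK.cpt (δ := δ) t.1 t.2.1 t.2.2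
        fun x hx y hy z hz => strict hA hG hP hx hy hz
      exact ⟨e, he, fun _ => he'⟩
    · exact ⟨δ + 1, by linarith, fun h => absurd h hP⟩
  choose e he he' using h1
  obtain ⟨t₀, ht₀⟩ := Finite.exists_min e
  refine ⟨e t₀, he t₀, fun a b c hP x hx y hy z hz => ?_⟩
  have := he' (a, b, c) hP x hx y hy z hz
  have h2 := ht₀ (a, b, c)
  linarith

end Pool.Agent.V5helper61.KX
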